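import Pool.Agent.U409.OA.Stm3

set_option autoImplicit false

/-!
# Project OA, package R1: the first recursion
-/

namespace Pool.Agent.U200.OA

open Finset Pool.Agent.U409.OA

section gen

variable {L R : Type} [CommRing R]

lemma row_append (X : L → L → Bool → Bool → Bool → Bool → R) (w : L) (q : List L) (ds : List Bool) :
    ∀ (p : List L) (cs : List Bool) (r : Bool) (k : Bool → List Bool → R), cs.length = p.length →
      row X w (p ++ q) r (cs ++ ds) k =
        row X w p r cs (fun t cs' => row X w q t ds (fun t' ds' => k t' (cs' ++ ds'))) := by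
  intro p
  induction p with
  | nil =>
    intro cs r k h
    obtain rfl : cs = [] := List.eq_nil_of_length_eq_zero (by simpa using h)
    simp only [List.nil_append, row]
  | cons v p ih =>
    intro cs r k h
    obtain ⟨c, cs', rfl⟩ : ∃ c cs', cs = c :: cs' := by
      cases cs with
      | nil => simp at h
      | cons c cs' => exact ⟨c, cs', rfl⟩
    have h' : cs'.length = p.length := by simpa using h
    simp only [List.cons_append, row]
    refine Finset.sum_congr rfl fun r' _ => Finset.sum_congr rfl fun c' _ => ?_
    rw [ih cs' r' _ h']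

lemma row_congr (X : L → L → Bool → Bool → Bool → Bool → R) (w : L) :
    ∀ (p : List L) (cs : List Bool) (r : Bool) (k k' : Bool → List Bool → R), cs.length = p.length →
      (∀ t cs', cs'.length = p.length → k t cs' = k' t cs') →
      row X w p r cs k = row X w p r cs k' := by
  intro p
  induction p with
  | nil =>
    intro cs r k k' h hk
    simp only [row]
    exact hk r [] rfl
  | cons v p ih =>
    intro cs r k k' h hk
    obtain ⟨c, cs', rfl⟩ : ∃ c cs', cs = c :: cs' := by
      cases cs with
      | nil => simp at h
      | cons c cs' => exact ⟨c, cs', rfl⟩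
    have h' : cs'.length = p.length := by simpa using h
    simp only [row]
    refine Finset.sum_congr rfl fun r' _ => Finset.sum_congr rfl fun c' _ => ?_
    rw [ih cs' r' _ _ h' (fun t cs'' h'' => hk t (c' :: cs'') (by simp [h'']))]

lemma row_mul (X : L → L → Bool → Bool → Bool → Bool → R) (w : L) (a : R) :
    ∀ (p : List L) (cs : List Bool) (r : Bool) (k : Bool → List Bool → R),
      row X w p r cs (fun t cs' => a * k t cs') = a * row X w p r cs k := by
  intro p
  induction p with
  | nil =>
    intro cs r k
    simp only [row]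
  | cons v p ih =>
    intro cs r k
    cases cs with
    | nil => simp only [row, mul_zero]
    | cons c cs' =>
      simp only [row]
      rw [Finset.mul_sum]
      refine Finset.sum_congr rfl fun r' _ => ?_
      rw [Finset.mul_sum]
      refine Finset.sum_congr rfl fun c' _ => ?_
      rw [ih cs' r' (fun t cs'' => k t (c' :: cs''))]
      ring

variable (z : R) (ι : L → R) (K : L → Bool → Bool → R)

/-- the crossing weights -/
def XX (a b : L) : Bool → Bool → Bool → Bool → R := cw z (ι a * ι b)

/-- the last column in the state `true` -/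
lemma LC (y : L) : ∀ (v : List L) (ss : List Bool), ss.length = v.length →
    Z (XX z ι) K (v ++ [y]) (ss ++ [true]) =
      (v.map fun k => z ^ 2 * (ι k * ι y) - 1).prod * K y true true * Z (XX z ι) K v ss := by
  intro v
  induction v with
  | nil =>
    intro ss h
    obtain rfl : ss = [] := List.eq_nil_of_length_eq_zero (by simpa using h)
    simp [Z, row]
  | cons w v ih =>
    intro ss h
    obtain ⟨s, ss', rfl⟩ : ∃ c cs', ss = c :: cs' := by
      cases ss with
      | nil => simp at h
      | cons c cs' => exact ⟨c, cs', rfl⟩
    have h' : ss'.length = v.length := by simpa using h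
    simp only [List.cons_append, Z]
    rw [Finset.mul_sum]
    refine Finset.sum_congr rfl fun r _ => ?_
    rw [row_append _ _ _ _ _ _ _ _ h']
    have e : row (XX z ι) w v r ss' (fun t cs' => row (XX z ι) w [y] t [true]
        (fun t' ds' => if t' = true then Z (XX z ι) K (v ++ [y]) (cs' ++ ds') else 0)) =
        row (XX z ι) w v r ss' (fun t cs' =>
          ((z ^ 2 * (ι w * ι y) - 1) * ((v.map fun k => z ^ 2 * (ι k * ι y) - 1).prod *
            K y true true)) * (if t = true then Z (XX z ι) K v cs' else 0)) := by
      refine row_congr _ _ _ _ _ _ _ h' fun t cs' hcs => ?_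
      have h2 := ih cs' hcs
      cases t <;> simp [row, XX, cw, h2]
      ring
    rw [e, row_mul]
    simp only [List.map_cons, List.prod_cons]
    ring

/-- the first row, from the state `true` -/
lemma rowT (x y : L) (hxy : ι x * ι y = z ^ 2) (k : Bool → List Bool → R) :
    ∀ v : List L, row (XX z ι) x (v ++ [y]) true (List.replicate (v ++ [y]).length false) k = 0 := by
  intro v
  induction v generalizing k with
  | nil => simp [row, XX, cw, hxy]
  | cons w v ih =>
    have h : (w :: v ++ [y]).length = (v ++ [y]).length + 1 := by simp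
    rw [h, List.replicate_succ, List.cons_append]
    simp only [row]
    refine Finset.sum_eq_zero fun r' _ => Finset.sum_eq_zero fun c' _ => ?_
    cases r'
    · simp [XX, cw]
    · rw [ih, mul_zero]

/-- the first row, from the state `false`; the row must end in the state `true` -/
lemma rowF (x y : L) (hxy : ι x * ι y = z ^ 2) :
    ∀ (v : List L) (k : List Bool → R),
      row (XX z ι) x (v ++ [y]) false (List.replicate (v ++ [y]).length false)
        (fun t cs => if t = true then k cs else 0) =
      (v.map fun a => z ^ 2 * (ι x * ι a) - 1).prod * (z - 2) *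
        k (List.replicate v.length false ++ [true]) := by
  intro v
  induction v with
  | nil =>
    intro k
    simp [row, XX, cw]
  | cons w v ih =>
    intro k
    have h : (w :: v ++ [y]).length = (v ++ [y]).length + 1 := by simp
    rw [h, List.replicate_succ, List.cons_append]
    simp only [row]
    have h1 := ih (fun cs => k (false :: cs))
    have h2 := rowT z ι x y hxy (fun t cs => if t = true then k (true :: cs) else 0) v
    simp only [Fintype.sum_bool]
    rw [h1, h2]
    simp only [XX, cw, List.map_cons, List.prod_cons, List.length_cons, List.replicate_succ,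
      List.cons_append]
    ring

theorem main (x y : L) (hxy : ι x * ι y = z ^ 2) (v : List L) :
    Z (XX z ι) K (x :: (v ++ [y])) (List.replicate (x :: (v ++ [y])).length false) =
      K x false false * K y true true * ((z - 2) *
        (v.map fun a => (z ^ 2 * (ι x * ι a) - 1) * (z ^ 2 * (ι a * ι y) - 1)).prod) *
        Z (XX z ι) K v (List.replicate v.length false) := by
  rw [List.length_cons, List.replicate_succ]
  simp only [Z, Fintype.sum_bool]
  rw [rowT z ι x y hxy, rowF z ι x y hxy v (fun cs => Z (XX z ι) K (v ++ [y]) cs),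
    LC z ι K y v _ (by simp), List.prod_map_mul]
  ring

end gen

lemma inl_aux (x y z P : ℂ) :
    (TrivSqZeroExt.inl ((x + z ^ 2) * (y + z ^ 2) * ((z - 2) * P)) : DualNumber ℂ) =
      (TrivSqZeroExt.inl x + TrivSqZeroExt.inl z ^ 2) *
        (TrivSqZeroExt.inl y + TrivSqZeroExt.inl z ^ 2) *
        ((TrivSqZeroExt.inl z - 2) * TrivSqZeroExt.inl P) := by
  have h2 : (2 : DualNumber ℂ) = TrivSqZeroExt.inl 2 := by
    exact (map_ofNat (TrivSqZeroExt.inlHom ℂ ℂ) 2).symm
  rw [h2, TrivSqZeroExt.inl_mul, TrivSqZeroExt.inl_mul, TrivSqZeroExt.inl_mul,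
    TrivSqZeroExt.inl_add, TrivSqZeroExt.inl_add, TrivSqZeroExt.inl_sub, TrivSqZeroExt.inl_pow]

/-- **R1.** -/
theorem t_R1 : S_R1 := by
  intro z x y v hxy
  constructor
  · have h := main z (fun a : ℂ => a) (fun _ => k0) x y hxy v
    have e : ∀ l : List ℂ, G z l = Z (XX z fun a : ℂ => a) (fun _ => k0) l
        (List.replicate l.length false) := fun l => rfl
    rw [e, e, h]
    simp only [k0]
    norm_num
  · have h := main (TrivSqZeroExt.inl z : DualNumber ℂ) (fun a : ℂ => TrivSqZeroExt.inl a)
      (fun w => ke (TrivSqZeroExt.inl z) DualNumber.eps (TrivSqZeroExt.inl w)) x y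
      (by rw [← TrivSqZeroExt.inl_mul, hxy, TrivSqZeroExt.inl_pow]) v
    have e : ∀ l : List ℂ, ZD z l = Z (XX (TrivSqZeroExt.inl z : DualNumber ℂ)
        fun a : ℂ => TrivSqZeroExt.inl a)
        (fun w => ke (TrivSqZeroExt.inl z) DualNumber.eps (TrivSqZeroExt.inl w)) l
        (List.replicate l.length false) := fun l => rfl
    have e2 : ((v.map fun a => ((TrivSqZeroExt.inl z : DualNumber ℂ) ^ 2 *
        (TrivSqZeroExt.inl x * TrivSqZeroExt.inl a) - 1) *
        ((TrivSqZeroExt.inl z : DualNumber ℂ) ^ 2 *
          (TrivSqZeroExt.inl a * TrivSqZeroExt.inl y) - 1)).prod : DualNumber ℂ) =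
        TrivSqZeroExt.inl ((v.map fun k => (z ^ 2 * (x * k) - 1) * (z ^ 2 * (k * y) - 1)).prod) := by
      have h3 := map_list_prod (TrivSqZeroExt.inlHom ℂ ℂ)
        (v.map fun k => (z ^ 2 * (x * k) - 1) * (z ^ 2 * (k * y) - 1))
      rw [List.map_map] at h3
      refine Eq.trans ?_ h3.symm
      congr 1
      refine List.map_congr_left fun a _ => ?_
      simp only [Function.comp, map_mul, map_sub, map_pow, map_one]
      rfl
    have h4 : ZD z (x :: (v ++ [y])) = TrivSqZeroExt.inl ((x + z ^ 2) * (y + z ^ 2) *
        ((z - 2) * (v.map fun k => (z ^ 2 * (x * k) - 1) * (z ^ 2 * (k * y) - 1)).prod)) *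
        ZD z v := by
      rw [e, e, h, e2]
      congr 1
      exact (inl_aux x y z _).symm
    unfold A
    rw [h4, TrivSqZeroExt.snd_mul]
    simp
end Pool.Agent.U200.OA
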